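import Pool.Agent.H21.BT.Targets

/-!
# Row OT4 of bt_modules: duality for tuples of exponentials
-/

set_option autoImplicit false

open Finset Pool.Agent.H6.N4D Pool.Agent.H21.BS Pool.Agent.H21.BT

namespace Pool.Agent.H38.BT.OT4

/-- the mean of the divisibility function -/
theorem sum_ind (hCNT : T_CNT) (q a N : ℕ) (hq : 1 ≤ q) (hqN : q ≤ N) :
    ∑ x ∈ range N, (if q ∣ a + x then (q : ℝ) else 0) ≤ 2 * N := by
  have hq0 : (0 : ℝ) < q := by exact_mod_cast hq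
  rw [← Finset.sum_filter, Finset.sum_const, nsmul_eq_mul]
  have h3 := hCNT N q ((range N).filter fun x => q ∣ a + x) hq (Finset.filter_subset _ _) (by
    intro x hx y hy
    have hx' : (q : ℤ) ∣ ((a + x : ℕ) : ℤ) := by exact_mod_cast (Finset.mem_filter.mp hx).2
    have hy' : (q : ℤ) ∣ ((a + y : ℕ) : ℤ) := by exact_mod_cast (Finset.mem_filter.mp hy).2
    have h4 := dvd_sub hx' hy'
    push_cast at h4
    have h5 : (a : ℤ) + x - (a + y) = x - y := by ring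
    rwa [h5] at h4)
  have h4 : (((range N).filter fun x => q ∣ a + x).card : ℝ) * q ≤ ((N : ℝ) / q + 1) * q :=
    mul_le_mul_of_nonneg_right h3 hq0.le
  have h5 : ((N : ℝ) / q + 1) * q = N + q := by field_simp
  have h6 : (q : ℝ) ≤ N := by exact_mod_cast hqN
  linarith

theorem norm_DD (q n : ℕ) : ‖DD q n‖ ≤ (if q ∣ n then (q : ℝ) else 0) + 1 := by
  unfold DD
  refine (norm_sub_le _ _).trans ?_
  rw [norm_one]
  split_ifs
  · rw [Complex.norm_natCast]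
  · rw [norm_zero]

/-- the mean of a test function -/
theorem sum_u (hCNT : T_CNT) (V : TC) (W A : ℝ) (P : ℕ) (hV : V.Ok W A P) (q : ℕ)
    (hq : q ∈ V.Q) : ∑ x ∈ range V.N, ‖V.u q (V.a + x)‖ ≤ 3 * V.N := by
  have hq1 : 1 ≤ q := (hV.pr q hq).one_lt.le
  have hqN : q ≤ V.N := (Nat.le_self_pow (by norm_num) q).trans (hV.up q hq)
  have h1 : ∀ x ∈ range V.N, ‖V.u q (V.a + x)‖ ≤
      ((if q ∣ V.a + x then (q : ℝ) else 0) +
        (if q ∣ V.a + x then (q : ℝ) else 0) * ‖V.F q (V.a + x)‖ ^ 2) / 2 +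
        (1 + ‖V.F q (V.a + x)‖ ^ 2) / 2 := by
    intro x _
    unfold TC.u
    rw [norm_mul]
    have h2 := norm_DD q (V.a + x)
    have h3 := norm_nonneg (V.F q (V.a + x))
    have h4 : (0 : ℝ) ≤ (if q ∣ V.a + x then (q : ℝ) else 0) := by split_ifs <;> positivity
    have h5 := mul_le_mul_of_nonneg_right h2 h3
    have h6 : ‖V.F q (V.a + x)‖ ≤ (1 + ‖V.F q (V.a + x)‖ ^ 2) / 2 := by
      nlinarith [sq_nonneg (‖V.F q (V.a + x)‖ - 1)]
    have h7 := mul_le_mul_of_nonneg_left h6 h4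
    nlinarith
  refine (Finset.sum_le_sum h1).trans ?_
  rw [Finset.sum_add_distrib, ← Finset.sum_div, ← Finset.sum_div, Finset.sum_add_distrib,
    Finset.sum_add_distrib]
  have e1 := sum_ind hCNT q V.a V.N hq1 hqN
  have e2 := hV.nq q hq
  have e3 := hV.n1 q hq
  have e4 : ∑ _x ∈ range V.N, (1 : ℝ) = V.N := by simp
  rw [e4]
  linarith

theorem norm_av (hCNT : T_CNT) (V : TC) (W A : ℝ) (P : ℕ) (hV : V.Ok W A P) (f : ℕ → ℂ)
    (hf : ∀ n, ‖f n‖ ≤ 1) (q : ℕ) (hq : q ∈ V.Q) :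
    ‖av V.a V.N fun n => f n * starRingEnd ℂ (V.u q n)‖ ≤ 3 := by
  have hN0 : (0 : ℝ) < V.N := by exact_mod_cast hV.N1
  unfold av
  rw [norm_div, Complex.norm_natCast, div_le_iff₀ hN0]
  refine (norm_sum_le _ _).trans ?_
  refine le_trans (Finset.sum_le_sum fun x _ => ?_) (sum_u hCNT V W A P hV q hq)
  rw [norm_mul, RCLike.norm_conj]
  calc ‖f (V.a + x)‖ * ‖V.u q (V.a + x)‖ ≤ 1 * ‖V.u q (V.a + x)‖ :=
        mul_le_mul_of_nonneg_right (hf _) (norm_nonneg _)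
    _ = ‖V.u q (V.a + x)‖ := one_mul _

/-- duality on one window -/
theorem dual (V : TC) (f : ℕ → ℂ) (z : ℕ → ℂ) (hN : 0 < V.N)
    (hc : ∀ q ∈ V.Q, z q = av V.a V.N fun n => f n * starRingEnd ℂ (V.u q n)) :
    ∑ x ∈ range V.N, f (V.a + x) * starRingEnd ℂ (V.om z (V.a + x)) =
      (((V.N : ℝ) * ∑ q ∈ V.Q, 1 / (q : ℝ) * ‖z q‖ ^ 2 : ℝ) : ℂ) := by
  have hN0 : (V.N : ℂ) ≠ 0 := by exact_mod_cast hN.ne'
  have h1 : ∀ q ∈ V.Q, ∑ x ∈ range V.N, f (V.a + x) * starRingEnd ℂ (V.u q (V.a + x)) =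
      V.N * z q := by
    intro q hq
    rw [hc q hq]
    unfold av
    field_simp
  have h2 : ∀ x, f (V.a + x) * starRingEnd ℂ (V.om z (V.a + x)) =
      ∑ q ∈ V.Q, 1 / (q : ℂ) * starRingEnd ℂ (z q) *
        (f (V.a + x) * starRingEnd ℂ (V.u q (V.a + x))) := by
    intro x
    unfold TC.om
    rw [map_sum, Finset.mul_sum]
    refine Finset.sum_congr rfl fun q _ => ?_
    rw [map_mul, map_mul, map_div₀, map_one, Complex.conj_natCast]
    ring
  simp only [h2]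
  rw [Finset.sum_comm]
  push_cast
  rw [Finset.mul_sum]
  refine Finset.sum_congr rfl fun q hq => ?_
  rw [← Finset.mul_sum, h1 q hq]
  have h3 : starRingEnd ℂ (z q) * z q = ((‖z q‖ : ℂ)) ^ 2 := Complex.conj_mul' _
  linear_combination (1 / (q : ℂ)) * V.N * h3

theorem main (hLVT : T_LVT) (hCNT : T_CNT) : T_OT4 := by
  intro W A S f hS hf
  obtain ⟨hA, -, hE⟩ := hLVT S W A hS
  refine ⟨?_, ?_⟩
  · intro i j q
    unfold TS.cf
    split_ifs with h
    · obtain ⟨h1, h2, h3, h4⟩ := h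
      exact norm_av hCNT (S.V i j) W A _ (hS.ok i h1 h2 j h3) f hf q h4
    · rw [norm_zero]
      norm_num
  · intro i h1 h2
    have hcf : ∀ j ∈ range (S.cnt i), ∀ q ∈ S.Q i, S.cf f i j q =
        av (S.U + j * S.N i) (S.N i) fun n => f n * starRingEnd ℂ ((S.V i j).u q n) := by
      intro j hj q hq
      unfold TS.cf
      rw [if_pos ⟨h1, h2, Finset.mem_range.mp hj, hq⟩]
    have hZ : (S.N i : ℝ) / S.L * (∑ j ∈ range (S.cnt i), ∑ q ∈ S.Q i,
        1 / (q : ℝ) * ‖S.cf f i j q‖ ^ 2) = S.e f i := by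
      unfold TS.e
      congr 1
      refine Finset.sum_congr rfl fun j hj => Finset.sum_congr rfl fun q hq => ?_
      rw [hcf j hj q hq]
      rfl
    refine ⟨hZ, ?_⟩
    obtain ⟨hN, -, -, -, hL, hsum, -⟩ := hA i h2
    have hL0 : (S.L : ℂ) ≠ 0 := by exact_mod_cast hL.ne'
    rw [← hZ]
    unfold av
    rw [hsum (fun n => f n * starRingEnd ℂ (S.Om (S.cf f) i n)), div_eq_iff hL0]
    have hk : ∀ j ∈ range (S.cnt i), ∑ x ∈ range (S.N i), f (S.U + j * S.N i + x) *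
        starRingEnd ℂ (S.Om (S.cf f) i (S.U + j * S.N i + x)) =
        (((S.N i : ℝ) * ∑ q ∈ S.Q i, 1 / (q : ℝ) * ‖S.cf f i j q‖ ^ 2 : ℝ) : ℂ) := by
      intro j hj
      have e := dual (S.V i j) f (S.cf f i j) hN (hcf j hj)
      refine Eq.trans ?_ e
      refine Finset.sum_congr rfl fun x hx => ?_
      rw [hE (S.cf f) i j x h2 (Finset.mem_range.mp hj) (Finset.mem_range.mp hx)]
      rfl
    rw [Finset.sum_congr rfl hk]
    push_cast
    rw [← Finset.mul_sum]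
    field_simp

end Pool.Agent.H38.BT.OT4

namespace Pool.Agent.H38.BT

theorem pf_OT4 (hLVT : T_LVT) (hCNT : T_CNT) : T_OT4 := OT4.main hLVT hCNT

end Pool.Agent.H38.BT
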